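import Pool.Agent.TQU.Defs

/-!
# Covers of the plane branched along a conic and a curve: the definitions

Surfaces `φ(z) = f(x,y)/h^e`, `h^(e-1) = q(x,y)`, and their level curves.
-/

namespace Pool.Agent.TCB

universe u

/-- the ideal of the level curve `h^(e-1) = q(x,y)`, `f(x,y) = c h^e` in the space with coordinates
`x = X 0`, `y = X 1`, `h = X 2` -/
noncomputable def levelIdeal {k M : Type u} [Field k] [Field M] [Algebra k M] (e : ℕ)
    (f q : MvPolynomial (Fin 2) k) (c : M) : Ideal (MvPolynomial (Fin 3) M) :=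
  Ideal.span {MvPolynomial.X 2 ^ (e - 1) - MvPolynomial.aeval ![MvPolynomial.X 0, MvPolynomial.X 1] q,
    MvPolynomial.aeval ![MvPolynomial.X 0, MvPolynomial.X 1] f
      - MvPolynomial.C c * MvPolynomial.X 2 ^ e}

/-- the ideal of the point `Q` in the coordinate ring of the curve with the ideal `I` -/
noncomputable def pt {M : Type*} [Field M] (I : Ideal (MvPolynomial (Fin 3) M)) (Q : Fin 3 → M) :
    Ideal (MvPolynomial (Fin 3) M ⧸ I) :=
  (Ideal.span (Set.range fun i => MvPolynomial.X i - MvPolynomial.C (Q i))).map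
    (Ideal.Quotient.mk I)

/-- The 0-cycle `P + Q` of the space and `z` are defined over a field generated by two finitely
generated extensions of `k` of transcendence degree at most one. -/
def FromCurves (k : Type u) {M : Type u} [Field k] [Field M] [Algebra k M] (z : M)
    (P Q : Fin 3 → M) : Prop :=
  ∃ K₁ K₂ : IntermediateField k M, K₁.FG ∧ K₂.FG ∧ Algebra.trdeg k K₁ ≤ 1 ∧
    Algebra.trdeg k K₂ ≤ 1 ∧ z ∈ K₁ ⊔ K₂ ∧ (∀ i, P i + Q i ∈ K₁ ⊔ K₂) ∧
    ∀ i j, P i * Q j + P j * Q i ∈ K₁ ⊔ K₂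

end Pool.Agent.TCB
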